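import Mathlib

set_option autoImplicit false

/-!
# Orders of the quasigroups with `xy · y = x · xy`

Every finite quasigroup satisfying `(x y) y = x (x y)` has order congruent to `0` or `1` modulo `4`.
-/

namespace Pool.Agent.Results.MP_ab03e0_co.OrderModFour

open Equiv

/-- For all `a, b` each of the equations `a x = b` and `x a = b` has exactly one solution. -/
def IsQuasigroup {S : Type*} (op : S → S → S) : Prop :=
  ∀ a b : S, (∃! x : S, op a x = b) ∧ ∃! x : S, op x a = b

section

variable {S : Type*} {op : S → S → S}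

/-- the map `(x, y) ↦ (x, x y)` -/
noncomputable def A (h : IsQuasigroup op) : Perm (S × S) :=
  Equiv.ofBijective (fun p => (p.1, op p.1 p.2)) (by
    constructor
    · rintro ⟨a, b⟩ ⟨c, d⟩ hh
      simp only [Prod.mk.injEq] at hh
      obtain ⟨rfl, h2⟩ := hh
      exact Prod.ext rfl ((h a (op a d)).1.unique h2 rfl)
    · rintro ⟨a, b⟩
      obtain ⟨x, hx, -⟩ := (h a b).1
      exact ⟨(a, x), Prod.ext rfl hx⟩)

/-- the map `(x, y) ↦ (x y, y)` -/
noncomputable def R (h : IsQuasigroup op) : Perm (S × S) :=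
  Equiv.ofBijective (fun p => (op p.1 p.2, p.2)) (by
    constructor
    · rintro ⟨a, b⟩ ⟨c, d⟩ hh
      simp only [Prod.mk.injEq] at hh
      obtain ⟨h2, rfl⟩ := hh
      exact Prod.ext ((h b (op c b)).2.unique h2 rfl) rfl
    · rintro ⟨a, b⟩
      obtain ⟨x, hx, -⟩ := (h b a).2
      exact ⟨(x, b), Prod.ext hx rfl⟩)

theorem key (h : IsQuasigroup op) (hid : ∀ x y, op (op x y) y = op x (op x y)) :
    A h * (R h)⁻¹ * (A h)⁻¹ = (R h)⁻¹ * Equiv.prodComm S S := by
  have hA : ∀ x y, A h (x, y) = (x, op x y) := fun _ _ => rfl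
  have hR : ∀ x y, R h (x, y) = (op x y, y) := fun _ _ => rfl
  rw [mul_inv_eq_iff_eq_mul]
  ext1 ⟨x, y⟩
  simp only [Perm.mul_apply, hA]
  obtain ⟨w, hw, -⟩ := (h y x).2
  have e1 : (R h)⁻¹ (x, y) = (w, y) := by
    rw [Perm.inv_eq_iff_eq, hR, hw]
  have e2 : (R h)⁻¹ ((Equiv.prodComm S S) (x, op x y)) = (w, x) := by
    rw [Perm.inv_eq_iff_eq, hR]
    simp only [Equiv.prodComm_apply, Prod.swap_prod_mk]
    have := hid w y
    rw [hw] at this
    rw [this]
  rw [e1, e2]
  show (w, op w y) = (w, x)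
  rw [hw]

end

/-- the sign of the exchange of the coordinates -/
theorem sign_prodComm (S : Type*) [Fintype S] [DecidableEq S] :
    Perm.sign (Equiv.prodComm S S : Perm (S × S)) =
      (-1) ^ ((Fintype.card S * Fintype.card S - Fintype.card S) / 2) := by
  have h2 : (Equiv.prodComm S S : Perm (S × S)) ^ 2 = 1 := by
    ext1 ⟨x, y⟩
    simp [pow_two]
  have hfix : Fintype.card (Function.fixedPoints (Equiv.prodComm S S : Perm (S × S))) =
      Fintype.card S := by
    refine Fintype.card_congr ⟨fun p => p.1.1, fun x => ⟨(x, x), rfl⟩, ?_, ?_⟩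
    · rintro ⟨⟨x, y⟩, hxy⟩
      have h3 : y = x := congrArg Prod.fst hxy
      subst h3
      rfl
    · intro x
      rfl
  rw [Perm.sign_of_pow_two_eq_one h2, hfix, Fintype.card_prod]

/-- Every finite quasigroup which satisfies `(x y) y = x (x y)` for all `x, y` has order congruent
to `0` or `1` modulo `4`. -/
theorem result (S : Type*) [Finite S] (op : S → S → S) (hq : IsQuasigroup op)
    (hid : ∀ x y : S, op (op x y) y = op x (op x y)) :
    Nat.card S % 4 = 0 ∨ Nat.card S % 4 = 1 := by
  classical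
  have : Fintype S := Fintype.ofFinite S
  have hs := congrArg Perm.sign (key hq hid)
  simp only [Perm.sign_mul, Perm.sign_inv] at hs
  have h1 : Perm.sign (Equiv.prodComm S S : Perm (S × S)) = 1 := by
    have h3 : Perm.sign (A hq) * Perm.sign (R hq) * Perm.sign (A hq) = Perm.sign (R hq) := by
      rw [mul_comm, ← mul_assoc, Int.units_mul_self, one_mul]
    rw [h3] at hs
    exact (mul_eq_left.1 hs.symm)
  rw [sign_prodComm] at h1
  rw [Nat.card_eq_fintype_card]
  set n := Fintype.card S with hn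
  have heven : Even ((n * n - n) / 2) := by
    rcases Nat.even_or_odd ((n * n - n) / 2) with h | h
    · exact h
    · rw [h.neg_one_pow] at h1
      exact absurd h1 (by decide)
  obtain ⟨k, hk⟩ := heven
  obtain ⟨t, r, hr, hnt⟩ : ∃ t r : ℕ, r < 4 ∧ n = 4 * t + r :=
    ⟨n / 4, n % 4, Nat.mod_lt _ (by norm_num), (Nat.div_add_mod n 4).symm⟩
  have e : n * n - n = n * (n - 1) := by
    rw [Nat.mul_sub, mul_one]
  rw [e] at hk
  interval_cases r
  · left; omega
  · right; omega
  · exfalso
    have e2 : n * (n - 1) = 2 * (2 * (4 * t * t + 3 * t) + 1) := by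
      rw [hnt, show 4 * t + 2 - 1 = 4 * t + 1 from rfl]; ring
    rw [e2, Nat.mul_div_cancel_left _ (by norm_num)] at hk
    omega
  · exfalso
    have e2 : n * (n - 1) = 2 * (2 * (4 * t * t + 5 * t + 1) + 1) := by
      rw [hnt, show 4 * t + 3 - 1 = 4 * t + 2 from rfl]; ring
    rw [e2, Nat.mul_div_cancel_left _ (by norm_num)] at hk
    omega

end Pool.Agent.Results.MP_ab03e0_co.OrderModFour
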